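import Pool.Agent.W5h89.SSE.Nondeg

/-!
# Orthogonal complements under Poincaré duality
-/

open CategoryTheory AlgebraicGeometry

universe u v w

namespace Pool.Agent.W5h89.SSE

open Module
open Pool.Agent.H914 Pool.Agent.H914.VarClass Pool.Agent.H914.VarClass.Obj
  Pool.Agent.H914.WeilCohomology Pool.Agent.Y133.Half
open Pool.Agent.W5h89.SSD

section linear

variable {K M N : Type*} [Field K] [AddCommGroup M] [Module K M] [AddCommGroup N] [Module K N]
  [FiniteDimensional K M] [FiniteDimensional K N]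

/-- The right orthogonal space. -/
def perpR (B : M →ₗ[K] N →ₗ[K] K) (V : Submodule K M) : Submodule K N where
  carrier := {y | ∀ x ∈ V, B x y = 0}
  add_mem' ha hb x hx := by rw [map_add, ha x hx, hb x hx, add_zero]
  zero_mem' x _ := map_zero _
  smul_mem' c y hy x hx := by rw [map_smul, hy x hx, smul_zero]

omit [FiniteDimensional K M] [FiniteDimensional K N] in
lemma mem_perpR {B : M →ₗ[K] N →ₗ[K] K} {V : Submodule K M} {y : N} :
    y ∈ perpR B V ↔ ∀ x ∈ V, B x y = 0 := Iff.rfl

variable {B : M →ₗ[K] N →ₗ[K] K} (hl : ∀ x, (∀ y, B x y = 0) → x = 0)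
  (hr : ∀ y, (∀ x, B x y = 0) → y = 0)

include hl hr

lemma finrank_eq_of_pairing : finrank K M = finrank K N := by
  have h1 : finrank K M ≤ finrank K (Dual K N) := by
    apply LinearMap.finrank_le_finrank_of_injective (f := B)
    rw [← LinearMap.ker_eq_bot, LinearMap.ker_eq_bot']
    intro x hx
    exact hl x fun y => by rw [hx, LinearMap.zero_apply]
  have h2 : finrank K N ≤ finrank K (Dual K M) := by
    apply LinearMap.finrank_le_finrank_of_injective (f := B.flip)
    rw [← LinearMap.ker_eq_bot, LinearMap.ker_eq_bot']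
    intro y hy
    exact hr y fun x => by rw [← LinearMap.flip_apply, hy, LinearMap.zero_apply]
  rw [Subspace.dual_finrank_eq] at h1 h2
  exact le_antisymm h1 h2

lemma finrank_perpR (V : Submodule K M) :
    finrank K (perpR B V) + finrank K V = finrank K M := by
  have hinj : Function.Injective B.flip := by
    rw [← LinearMap.ker_eq_bot, LinearMap.ker_eq_bot']
    intro y hy
    exact hr y fun x => by rw [← LinearMap.flip_apply, hy, LinearMap.zero_apply]
  have hsurj : Function.Surjective B.flip :=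
    (LinearMap.injective_iff_surjective_of_finrank_eq_finrank
      (by rw [Subspace.dual_finrank_eq, finrank_eq_of_pairing hl hr])).1 hinj
  let ρ : N →ₗ[K] Dual K V := V.dualRestrict ∘ₗ B.flip
  have hρ : ∀ y (x : V), ρ y x = B x y := fun y x => rfl
  have hρs : Function.Surjective ρ := by
    rw [LinearMap.coe_comp]
    exact Subspace.dualRestrict_surjective.comp hsurj
  have hker : LinearMap.ker ρ = perpR B V := by
    ext y
    rw [LinearMap.mem_ker, mem_perpR]
    constructor
    · intro h x hx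
      rw [← hρ y ⟨x, hx⟩, h, LinearMap.zero_apply]
    · intro h
      apply LinearMap.ext
      intro x
      rw [hρ, LinearMap.zero_apply]
      exact h x x.2
  have h1 := LinearMap.finrank_range_add_finrank_ker ρ
  rw [LinearMap.range_eq_top.2 hρs, finrank_top, Subspace.dual_finrank_eq, hker] at h1
  rw [finrank_eq_of_pairing hl hr, ← h1, add_comm]

lemma isCompl_perp {V : Submodule K M} {C : Submodule K N} (h : IsCompl (perpR B V) C) :
    IsCompl V (perpR B.flip C) := by
  have h0 : Disjoint V (perpR B.flip C) := by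
    rw [Submodule.disjoint_def]
    intro x hx hx2
    apply hl
    intro y
    obtain ⟨a, ha, c, hc, rfl⟩ := Submodule.mem_sup.1 (by rw [h.sup_eq_top]; exact
      Submodule.mem_top : y ∈ perpR B V ⊔ C)
    rw [map_add, ha x hx, zero_add]
    exact hx2 c hc
  have h1 := finrank_perpR hl hr V
  have h2 := finrank_perpR (B := B.flip) hr hl C
  have h3 := Submodule.finrank_add_eq_of_isCompl h
  have h4 := finrank_eq_of_pairing hl hr
  have h5 : finrank K M ≤ finrank K V + finrank K (perpR B.flip C) := by omega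
  exact ⟨h0, codisjoint_iff.2 (Submodule.eq_top_of_disjoint _ _ h5 h0)⟩

end linear

variable {k : Type u} [Field k] {𝒱 : VarClass k} {ops : CycleOps 𝒱}
  {W : WeilCohomology.{u, v} ops} {Γ : Type w} [Group Γ] (A : GaloisAction W Γ)
  {X : 𝒱.Obj}

/-- The pairing of `H^i(X)` and `H^j(X)`. -/
noncomputable def pairing (W : WeilCohomology.{u, v} ops) (X : 𝒱.Obj) (i j : ℕ) :
    W.gr X i →ₗ[W.K] W.gr X j →ₗ[W.K] W.K :=
  ((LinearMap.mul W.K (W.H X)).compr₂ (W.tr X)).compl₁₂ (W.gr X i).subtype (W.gr X j).subtype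

lemma pairing_apply {i j : ℕ} (x : W.gr X i) (y : W.gr X j) :
    pairing W X i j x y = W.tr X ((x : W.H X) * y) := rfl

lemma pairing_left {i j : ℕ} (hij : i + j = 2 * X.dim) (x : W.gr X i)
    (h : ∀ y, pairing W X i j x y = 0) : x = 0 := by
  apply Subtype.ext
  apply W.nondeg
  intro b
  refine gr_induction (W.isInternal X) (p := fun b => W.tr X ((x : W.H X) * b) = 0) ?_ ?_ b
  · intro m b hb
    by_cases hm : m = j
    · subst hm
      exact h ⟨b, hb⟩
    · exact W.tr_eq_zero (W.mul_mem x.2 hb) (by omega)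
  · intro a b ha hb
    rw [mul_add, map_add, ha, hb, add_zero]

lemma pairing_comm {i j : ℕ} (x : W.gr X i) (y : W.gr X j) :
    pairing W X i j x y = (-1 : W.K) ^ (i * j) * pairing W X j i y x := by
  rw [pairing_apply, pairing_apply, W.comm x.2 y.2, map_smul, smul_eq_mul]

lemma pairing_right {i j : ℕ} (hij : i + j = 2 * X.dim) (y : W.gr X j)
    (h : ∀ x, pairing W X i j x y = 0) : y = 0 := by
  refine pairing_left (i := j) (j := i) (by omega) y fun x => ?_
  rw [pairing_comm, h x, mul_zero]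

/-- The subspace of `H^i(X)` given by a subspace of the cohomology. -/
def cut (V : Submodule W.K (W.H X)) (i : ℕ) : Submodule W.K (W.gr X i) :=
  V.comap (W.gr X i).subtype

lemma finrank_cut {V : Submodule W.K (W.H X)} {i : ℕ} (hV : V ≤ W.gr X i) :
    finrank W.K (cut V i) = finrank W.K V := by
  have h1 : (cut V i).map (W.gr X i).subtype = V := by
    rw [cut, Submodule.map_comap_subtype, inf_eq_right.2 hV]
  rw [← Submodule.finrank_map_subtype_eq (W.gr X i) (cut V i), h1]

/-- The orthogonal space in degree `j` of a subspace of `H^i(X)`. -/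
noncomputable def orth (i j : ℕ) (V : Submodule W.K (W.H X)) : Submodule W.K (W.H X) :=
  (perpR (pairing W X i j) (cut V i)).map (W.gr X j).subtype

lemma mem_orth {i j : ℕ} {V : Submodule W.K (W.H X)} (hV : V ≤ W.gr X i) {y : W.H X} :
    y ∈ orth i j V ↔ y ∈ W.gr X j ∧ ∀ x ∈ V, W.tr X (x * y) = 0 := by
  constructor
  · rintro ⟨y, hy, rfl⟩
    exact ⟨y.2, fun x hx => hy ⟨x, hV hx⟩ hx⟩
  · rintro ⟨h1, h2⟩
    exact ⟨⟨y, h1⟩, fun x hx => h2 x hx, rfl⟩

lemma orth_le {i j : ℕ} {V : Submodule W.K (W.H X)} : orth i j V ≤ W.gr X j := by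
  rintro _ ⟨y, -, rfl⟩
  exact y.2

lemma orth_stable {i j : ℕ} {V : Submodule W.K (W.H X)} (hV : V ≤ W.gr X i)
    (h : IsStable A V) : IsStable A (orth i j V) := by
  intro g y hy
  rw [mem_orth hV] at hy ⊢
  refine ⟨A.gr g X j y hy.1, fun x hx => ?_⟩
  have h1 := A.tr g X (A.e g⁻¹ X x * y)
  rw [hy.2 _ (h g⁻¹ x hx), mul_zero, A.ring, A.inv_right] at h1
  exact h1

lemma finrank_orth {i j : ℕ} (hij : i + j = 2 * X.dim) {V : Submodule W.K (W.H X)}
    (hV : V ≤ W.gr X i) : finrank W.K (orth i j V) + finrank W.K V = finrank W.K (W.gr X i) := by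
  have h1 := finrank_perpR (pairing_left hij) (pairing_right hij) (cut V i)
  rw [finrank_cut hV] at h1
  have h2 : finrank W.K (orth i j V) =
      finrank W.K (perpR (pairing W X i j) (cut V i)) :=
    Submodule.finrank_map_subtype_eq (W.gr X j) _
  rw [h2, h1]

/-- Duality for direct summands. -/
theorem summand_of_orth {i j : ℕ} (hij : i + j = 2 * X.dim) {V : Submodule W.K (W.H X)}
    (hVi : V ≤ W.gr X i) (h : IsSummand A j (orth i j V)) : IsSummand A i V := by
  obtain ⟨C, hC, h1, h2⟩ := h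
  have hCj : C ≤ W.gr X j := by rw [← h2]; exact le_sup_right
  have hcompl : IsCompl (perpR (pairing W X i j) (cut V i)) (cut C j) := by
    refine IsCompl.of_eq ?_ ?_
    · rw [Submodule.eq_bot_iff]
      rintro y ⟨hy1, hy2⟩
      apply Subtype.ext
      have h3 : (y : W.H X) ∈ orth i j V ⊓ C := ⟨⟨y, hy1, rfl⟩, hy2⟩
      rw [h1, Submodule.mem_bot] at h3
      exact h3
    · rw [eq_top_iff]
      rintro y -
      obtain ⟨_, ⟨a, ha, rfl⟩, c, hc, h3⟩ := Submodule.mem_sup.1 (by rw [h2]; exact y.2 :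
        (y : W.H X) ∈ orth i j V ⊔ C)
      exact Submodule.mem_sup.2 ⟨a, ha, ⟨c, hCj hc⟩, hc, Subtype.ext h3⟩
  have h3 := isCompl_perp (pairing_left hij) (pairing_right hij) hcompl
  have hflip : perpR (pairing W X i j).flip (cut C j) = perpR (pairing W X j i) (cut C j) := by
    ext x
    rw [mem_perpR, mem_perpR]
    refine forall₂_congr fun y hy => ?_
    rw [LinearMap.flip_apply, pairing_comm]
    have h4 : ((-1 : W.K) ^ (i * j)) ≠ 0 := pow_ne_zero _ (neg_ne_zero.2 one_ne_zero)
    exact ⟨fun h => (mul_eq_zero.1 h).resolve_left h4, fun h => by rw [h, mul_zero]⟩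
  rw [hflip] at h3
  refine ⟨orth j i C, orth_stable A hCj hC, ?_, ?_⟩
  · rw [Submodule.eq_bot_iff]
    rintro x ⟨hx, ⟨y, hy, rfl⟩⟩
    have h4 : y ∈ cut V i ⊓ perpR (pairing W X j i) (cut C j) := ⟨hx, hy⟩
    rw [h3.inf_eq_bot, Submodule.mem_bot] at h4
    rw [h4]
    rfl
  · apply le_antisymm
    · exact sup_le hVi orth_le
    · intro x hx
      obtain ⟨a, ha, c, hc, h4⟩ := Submodule.mem_sup.1 (by rw [h3.sup_eq_top]; exact
        Submodule.mem_top : (⟨x, hx⟩ : W.gr X i) ∈ cut V i ⊔ perpR (pairing W X j i) (cut C j))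
      exact Submodule.mem_sup.2 ⟨a, ha, c, ⟨c, hc, rfl⟩, congrArg Subtype.val h4⟩

end Pool.Agent.W5h89.SSE
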