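import Pool.Agent.W5h89.SSQ.Main
import Pool.Agent.W5h89.SSE.Perp

/-!
# The effective criterion
-/

open CategoryTheory AlgebraicGeometry

universe u v w

namespace Pool.Agent.W5h89.SSE

open Module
open Pool.Agent.H914 Pool.Agent.H914.VarClass Pool.Agent.H914.VarClass.Obj
  Pool.Agent.H914.WeilCohomology Pool.Agent.Y133.Half
open Pool.Agent.W5h89.SSD

variable {k : Type u} [Field k] {𝒱 : VarClass k} {ops : CycleOps 𝒱}
  {W : WeilCohomology.{u, v} ops} {Γ : Type w} [Group Γ] (A : GaloisAction W Γ)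
  {X Y Z P : 𝒱.Obj} {n : ℕ}

/-- **Splitting**, with control of the power which is used. -/
lemma split_core {i i' t : ℕ} (hnZ : (tPred A).sys.Num ((pw Y n).prod P) = ⊥)
    {V : Submodule W.K (W.H Y)} (hVi : V ≤ W.gr Y i) (hV : IsStable A V)
    (hn : finrank W.K V = n + 1) {u : W.H P} {Δ : Subgroup Γ} (hΔ : Δ.FiniteIndex) (hu0 : u ≠ 0)
    (hui : u ∈ W.gr P i') (hdeg : finrank W.K V * i + i' = 2 * t)
    (hχ : ∀ g ∈ Δ, ∃ χ : W.K, A.e g P u = χ • u ∧ detOn A hV g * χ = A.c g ^ t) :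
    IsSummand A i V := by
  classical
  let b : Basis (Fin (n + 1)) W.K V := Module.finBasisOfFinrankEq _ _ hn
  have hbi : LinearIndependent W.K fun a => (b a : W.H Y) :=
    b.linearIndependent.map' V.subtype (Submodule.ker_subtype V)
  set ψ : W.H (pw Y n) := Psi W Y n fun a => (b a : W.H Y) with hψ
  have hψ0 : ψ ≠ 0 := Psi_ne_zero hbi
  set Z := (pw Y n).prod P with hZ
  have hx0 : xp W ψ u ≠ 0 := fun h => hu0 (xp_eq_zero_left hψ0 h)
  have hψact : ∀ g, A.e g (pw Y n) ψ = detOn A hV g • ψ := by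
    intro g
    rw [hψ, Psi_act]
    exact Psi_det b ((A.e g Y).restrict (hV g))
  have hxT : IsTate A Z t (xp W ψ u) := by
    refine ⟨?_, Δ, hΔ, fun g hg => ?_⟩
    · have h1 := xp_gr (Psi_gr (i := i) (v := fun a => (b a : W.H Y)) fun a => hVi (b a).2) hui
      have h2 : (n + 1) * i + i' = 2 * t := by rw [← hn, hdeg]
      rw [h2] at h1
      exact h1
    · obtain ⟨χ, h1, h2⟩ := hχ g hg
      rw [xp_act, hψact, h1, xp_smul_left, xp_smul_right, smul_smul, h2]
  obtain ⟨j, z, hz, hz0⟩ : ∃ j z, IsTate A Z j z ∧ W.tr Z (xp W ψ u * z) ≠ 0 := by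
    by_contra hcon
    push Not at hcon
    apply hx0
    have h1 : xp W ψ u ∈ (tPred A).sys.Num Z := by
      refine ⟨ClassPred.sp_of (Q := tPred A) hxT, fun y hy => ?_⟩
      refine ClassPred.sp_ind (Q := tPred A) (q := fun y => W.tr Z (xp W ψ u * y) = 0) ?_ ?_ ?_ hy
      · intro j x hx; exact hcon j x hx
      · rw [mul_zero, map_zero]
      · intro a b ha hb; rw [mul_add, map_add, ha, hb, add_zero]
    rw [hnZ, Submodule.mem_bot] at h1
    exact h1
  obtain ⟨hzg, Δ', hΔ', hzΔ⟩ := hz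
  let ℓ : W.H (pw Y n) →ₗ[W.K] W.K :=
    { toFun := fun y => W.tr Z (xp W y u * z)
      map_add' := fun y y' => by rw [xp_add_left, add_mul, map_add]
      map_smul' := fun c y => by
        rw [xp_smul_left, smul_mul_assoc, map_smul, RingHom.id_apply] }
  let F : W.H Y [⋀^Fin (n + 1)]→ₗ[W.K] W.K := ℓ.compAlternatingMap (Psi W Y n)
  have hF : ∀ v, F v = W.tr Z (xp W (Psi W Y n v) u * z) := fun v => rfl
  have hFb : (F fun a => (b a : W.H Y)) ≠ 0 := by rw [hF]; exact hz0
  have hcompl := isCompl_cpl b hFb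
  have hst : ∀ g ∈ Δ ⊓ Δ', ∀ x ∈ cpl F V, A.e g Y x ∈ cpl F V := by
    intro g hg x hx
    refine cpl_stable (T := A.e g Y) (T' := A.e g⁻¹ Y) (fun y hy => hV _ y hy)
      (fun y => A.inv_right g Y y) (fun v hv => ?_) hx
    obtain ⟨χ, h1, h2⟩ := hχ g hg.1
    have h3 : A.e g Z (xp W (Psi W Y n v) u * z) =
        (χ * A.c g ^ j) • (xp W (Psi W Y n fun a => A.e g Y (v a)) u * z) := by
      rw [A.ring, xp_act, Psi_act, h1, hzΔ g hg.2, xp_smul_right, smul_mul_smul_comm]
    have h4 := A.tr g Z (xp W (Psi W Y n v) u * z)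
    rw [h3, map_smul, ← hF v, hv, mul_zero, smul_eq_mul] at h4
    have hχ0 : χ ≠ 0 := by
      rintro rfl
      rw [mul_zero] at h2
      exact pow_ne_zero t (A.ne g) h2.symm
    exact (mul_eq_zero.1 h4).resolve_left (mul_ne_zero hχ0 (pow_ne_zero _ (A.ne g)))
  obtain ⟨U, hU, hUst⟩ := avg (fun g => A.e g Y) (fun x => A.one Y x)
    (fun g h x => A.mul g h Y x) hcompl hV (Δ ⊓ Δ') hst
  refine ⟨U ⊓ W.gr Y i, fun g x hx => ⟨hUst g x hx.1, A.gr g Y i x hx.2⟩, ?_, ?_⟩
  · rw [← inf_assoc, hU.inf_eq_bot, bot_inf_eq]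
  · apply le_antisymm
    · exact sup_le hVi inf_le_right
    · intro x hx
      have h1 : x ∈ V ⊔ U := by rw [hU.sup_eq_top]; exact Submodule.mem_top
      obtain ⟨y, hy, y', hy', rfl⟩ := Submodule.mem_sup.1 h1
      refine Submodule.mem_sup.2 ⟨y, hy, y', ⟨hy', ?_⟩, rfl⟩
      have h2 := Submodule.sub_mem _ hx (hVi hy)
      rwa [add_sub_cancel_left] at h2

lemma fst_inj [Nontrivial (W.H Y)] : Function.Injective (W.map (fst X Y)) := by
  intro x y hxy
  rw [← sub_eq_zero]
  have h1 : xp W (x - y) (1 : W.H Y) = 0 := by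
    rw [xp, map_one, mul_one, map_sub, hxy, sub_self]
  by_contra h0
  exact one_ne_zero (xp_eq_zero_left h0 h1)

/-- If the form is nondegenerate for a power, it is nondegenerate for the smaller powers. -/
lemma num_le [Nontrivial (W.H X)] {S : Sys W} {m : ℕ} : ∀ M, m ≤ M → S.Num (pw X M) = ⊥ →
    S.Num (pw X m) = ⊥ := by
  intro M hM
  induction M, hM using Nat.le_induction with
  | base => exact fun h => h
  | succ M hM ih => exact fun h => ih (num_inj (f := fst (pw X M) X) fst_inj h)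

/-- The squares of the determinants of the stable subspaces of the cohomology of `X` are potentially
powers of the cyclotomic character. -/
def CycDet (X : 𝒱.Obj) : Prop :=
  ∀ (i : ℕ) (V : Submodule W.K (W.H X)), V ≤ W.gr X i → ∀ hV : IsStable A V,
    ∃ Δ : Subgroup Γ, Δ.FiniteIndex ∧ ∀ g ∈ Δ, detOn A hV g ^ 2 = A.c g ^ (i * finrank W.K V)

variable {B : GaloisAction W Γ}

/-- Small subspaces are direct summands. -/
lemma summand_small (hB : CycDet B X) {i M : ℕ}
    (h : (tPred B).sys.Num (pw X M) = ⊥) {V : Submodule W.K (W.H X)}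
    (hVi : V ≤ W.gr X i) (hV : IsStable B V) (hle : 2 * finrank W.K V ≤ M + 1) :
    IsSummand B i V := by
  rcases Nat.eq_zero_or_pos (finrank W.K V) with h0 | hpos
  · have h1 : V = ⊥ := Submodule.finrank_eq_zero.1 h0
    refine ⟨W.gr X i, fun g x hx => B.gr g _ i x hx, ?_, ?_⟩
    · rw [h1, bot_inf_eq]
    · rw [h1, bot_sup_eq]
  obtain ⟨n, hn⟩ : ∃ n, finrank W.K V = n + 1 := ⟨finrank W.K V - 1, by omega⟩
  have hnt : Nontrivial (W.H X) := by
    have : Nontrivial V := Module.nontrivial_of_finrank_pos hpos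
    obtain ⟨x, hx⟩ := exists_ne (0 : V)
    exact ⟨⟨(x : W.H X), 0, fun h => hx (Subtype.ext h)⟩⟩
  obtain ⟨Δ, hΔ, hsq⟩ := hB i V hVi hV
  let bV : Basis (Fin (n + 1)) W.K V := Module.finBasisOfFinrankEq _ _ hn
  have hbi : LinearIndependent W.K fun a => (bV a : W.H X) :=
    bV.linearIndependent.map' V.subtype (Submodule.ker_subtype V)
  have hnum : (tPred B).sys.Num ((pw X n).prod (pw X n)) = ⊥ :=
    num_iso (pwAdd X n n) (num_le M (by omega) h)
  refine split_core B (P := pw X n) (u := Psi W X n fun a => (bV a : W.H X))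
    (i' := (n + 1) * i) (t := (n + 1) * i) hnum hVi hV hn hΔ (Psi_ne_zero hbi)
    (Psi_gr fun a => hVi (bV a).2) (by rw [hn, two_mul]) fun g hg => ?_
  refine ⟨detOn B hV g, ?_, ?_⟩
  · rw [Psi_act]
    exact Psi_det bV ((B.e g X).restrict (hV g))
  · rw [← sq, hsq g hg, hn, mul_comm]

/-- **The effective criterion.** -/
theorem semisimple_eff (hB : CycDet B X) {b : ℕ} {i : ℕ}
    (hb : finrank W.K (W.gr X i) ≤ b)
    (h : (tPred B).sys.Num (pw X (b - 1)) = ⊥) : IsSemisimple B X i := by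
  intro V hVi hV
  by_cases hle : 2 * finrank W.K V ≤ b
  · exact summand_small hB h hVi hV (by omega)
  have hVb : finrank W.K V ≤ finrank W.K (W.gr X i) := Submodule.finrank_mono hVi
  have hi : i ≤ 2 * X.dim := by
    by_contra hcon
    rw [W.gr_eq_bot X i (by omega), finrank_bot] at hVb
    omega
  have hij : i + (2 * X.dim - i) = 2 * X.dim := by omega
  have h1 := finrank_orth hij hVi
  exact summand_of_orth B hij hVi (summand_small hB h orth_le
    (orth_stable B hVi hV) (by omega))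

end Pool.Agent.W5h89.SSE
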