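import Pool.Agent.W5h2.SL.Core
import Pool.Agent.W5h89.SSE.Eff

/-!
# The cohomology of the powers of a variety with semisimple cohomology
-/

open CategoryTheory AlgebraicGeometry TensorProduct

universe u

namespace Pool.Agent.W5h89.SSE

open Module
open Pool.Agent.H914 Pool.Agent.H914.VarClass Pool.Agent.H914.VarClass.Obj
  Pool.Agent.H914.WeilCohomology Pool.Agent.Y133.Half
open Pool.Agent.W5h89.SSD Pool.Agent.W5h2.SL

variable {k : Type u} [Field k] {𝒱 : VarClass k} {ops : CycleOps 𝒱}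
  {W : WeilCohomology.{u, 0} ops} {X Y Z P : 𝒱.Obj} {ℓ : ℕ} [Fact ℓ.Prime]

section module

variable (ι : W.K ≃+* ℚ_[ℓ])

/-- The cohomology as a vector space over the field of `ℓ`-adic numbers. -/
def HL (_ : W.K ≃+* ℚ_[ℓ]) (X : 𝒱.Obj) : Type := W.H X

noncomputable instance : AddCommGroup (HL ι X) := inferInstanceAs (AddCommGroup (W.H X))

noncomputable instance : Module ℚ_[ℓ] (HL ι X) :=
  Module.compHom (W.H X) (ι.symm : ℚ_[ℓ] →+* W.K)

/-- The identity. -/
def toHL (x : W.H X) : HL ι X := x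

lemma toHL_add (x y : W.H X) : toHL ι (x + y) = toHL ι x + toHL ι y := rfl

lemma smul_toHL (c : ℚ_[ℓ]) (x : W.H X) : c • toHL ι x = toHL ι (ι.symm c • x) := rfl

lemma toHL_smul (c : W.K) (x : W.H X) : toHL ι (c • x) = ι c • toHL ι x := by
  rw [smul_toHL, ι.symm_apply_apply]

/-- A basis. -/
noncomputable def basisHL {κ : Type} (b : Basis κ W.K (W.H X)) : Basis κ ℚ_[ℓ] (HL ι X) :=
  letI : Module ℚ_[ℓ] (W.H X) := Module.compHom (W.H X) (ι.symm : ℚ_[ℓ] →+* W.K)
  let b' : Basis κ ℚ_[ℓ] (W.H X) := b.mapCoeffs ι fun c x => by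
    change ι.symm (ι c) • x = c • x
    rw [ι.symm_apply_apply]
  b'

lemma basisHL_apply {κ : Type} (b : Basis κ W.K (W.H X)) (a : κ) :
    basisHL ι b a = toHL ι (b a) := by
  let _ : Module ℚ_[ℓ] (W.H X) := Module.compHom (W.H X) (ι.symm : ℚ_[ℓ] →+* W.K)
  have h : ∀ (c : W.K) (x : W.H X), ι c • x = c • x := fun c x => by
    change ι.symm (ι c) • x = c • x
    rw [ι.symm_apply_apply]
  exact Basis.mapCoeffs_apply b ι h a

instance : FiniteDimensional ℚ_[ℓ] (HL ι X) :=
  Module.Finite.of_basis (basisHL ι (Module.finBasis W.K (W.H X)))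

/-- The correspondence of subspaces. -/
def subHL : Submodule W.K (W.H X) ≃o Submodule ℚ_[ℓ] (HL ι X) where
  toFun V :=
    { carrier := {x | (x : W.H X) ∈ V}
      add_mem' := fun {a b} ha hb => V.add_mem ha hb
      zero_mem' := V.zero_mem
      smul_mem' := fun c x hx => V.smul_mem (ι.symm c) hx }
  invFun U :=
    { carrier := {x | toHL ι x ∈ U}
      add_mem' := fun {a b} ha hb => U.add_mem ha hb
      zero_mem' := U.zero_mem
      smul_mem' := fun c x hx => by
        have h1 : toHL ι (c • x) = ι c • toHL ι x := toHL_smul ι c x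
        have h2 : toHL ι (c • x) ∈ U := h1 ▸ U.smul_mem (ι c) hx
        exact h2 }
  left_inv V := rfl
  right_inv U := rfl
  map_rel_iff' := Iff.rfl

lemma mem_subHL {V : Submodule W.K (W.H X)} {x : W.H X} : toHL ι x ∈ subHL ι V ↔ x ∈ V := Iff.rfl

lemma subHL_inf {V V' : Submodule W.K (W.H X)} : V ⊓ V' = ⊥ ↔ subHL ι V ⊓ subHL ι V' = ⊥ := by
  rw [← OrderIso.map_inf, ← (subHL ι).map_bot, (subHL ι).injective.eq_iff]

lemma subHL_sup {V V' V'' : Submodule W.K (W.H X)} :
    V ⊔ V' = V'' ↔ subHL ι V ⊔ subHL ι V' = subHL ι V'' := by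
  rw [← OrderIso.map_sup, (subHL ι).injective.eq_iff]

lemma subHL_top {V V' : Submodule W.K (W.H X)} : V ⊔ V' = ⊤ ↔ subHL ι V ⊔ subHL ι V' = ⊤ := by
  rw [← OrderIso.map_sup, ← (subHL ι).map_top, (subHL ι).injective.eq_iff]

/-- The external product as an isomorphism. -/
lemma exists_prodHL (X Y : 𝒱.Obj) : ∃ e : HL ι X ⊗[ℚ_[ℓ]] HL ι Y ≃ₗ[ℚ_[ℓ]] HL ι (X.prod Y),
    ∀ (x : W.H X) (y : W.H Y), e (toHL ι x ⊗ₜ toHL ι y) = toHL ι (xp W x y) := by
  classical
  let bX := Module.finBasis W.K (W.H X)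
  let bY := Module.finBasis W.K (W.H Y)
  let bXY : Basis (_ × _) W.K (W.H (X.prod Y)) :=
    (bX.tensorProduct bY).map (kappa W X Y)
  have hbXY : ∀ a b, bXY (a, b) = xp W (bX a) (bY b) := by
    intro a b
    have h1 : bXY (a, b) = kappa W X Y (bX a ⊗ₜ bY b) := by
      rw [Basis.map_apply, Basis.tensorProduct_apply]
    rw [h1, kappa_tmul]
    rfl
  let e := ((basisHL ι bX).tensorProduct (basisHL ι bY)).equiv (basisHL ι bXY) (Equiv.refl _)
  let m : HL ι X →ₗ[ℚ_[ℓ]] HL ι Y →ₗ[ℚ_[ℓ]] HL ι (X.prod Y) :=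
    LinearMap.mk₂ ℚ_[ℓ] (fun x y => toHL ι (xp W (x : W.H X) (y : W.H Y)))
      (fun x x' y => congrArg (toHL ι) (xp_add_left (x : W.H X) (x' : W.H X) (y : W.H Y)))
      (fun c x y => congrArg (toHL ι) (xp_smul_left (ι.symm c) (x : W.H X) (y : W.H Y)))
      (fun x y y' => congrArg (toHL ι) (xp_add_right (x : W.H X) (y : W.H Y) (y' : W.H Y)))
      (fun c x y => congrArg (toHL ι) (xp_smul_right (ι.symm c) (x : W.H X) (y : W.H Y)))
  have hm : e.toLinearMap = TensorProduct.lift m := by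
    refine ((basisHL ι bX).tensorProduct (basisHL ι bY)).ext fun ab => ?_
    obtain ⟨a, b⟩ := ab
    have h1 : e (((basisHL ι bX).tensorProduct (basisHL ι bY)) (a, b)) = basisHL ι bXY (a, b) :=
      Basis.equiv_apply _ _ _ _
    rw [LinearEquiv.coe_coe, h1, basisHL_apply, hbXY, Basis.tensorProduct_apply,
      TensorProduct.lift.tmul, basisHL_apply, basisHL_apply]
    rfl
  refine ⟨e, fun x y => ?_⟩
  have h1 := LinearMap.congr_fun hm (toHL ι x ⊗ₜ toHL ι y)
  rw [TensorProduct.lift.tmul] at h1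
  exact h1

end module

variable {Γ : Type} [Group Γ] [TopologicalSpace Γ] {ι : W.K ≃+* ℚ_[ℓ]}
  {A : SSP.GaloisAction W.toWeilData Γ}

omit [TopologicalSpace Γ] in
lemma act_add (g : Γ) (x y : W.H X) : (SSP.toG A).e g X (x + y) =
    (SSP.toG A).e g X x + (SSP.toG A).e g X y := map_add _ _ _

omit [TopologicalSpace Γ] in
lemma act_smul (g : Γ) (c : W.K) (x : W.H X) : (SSP.toG A).e g X (c • x) =
    c • (SSP.toG A).e g X x := map_smul _ _ _

/-- The cohomology as an `ℓ`-adic representation. -/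
noncomputable def grep (hc : ∀ X, SSQ.ContinuousFor ι (SSP.rep A X)) (X : 𝒱.Obj) : GRep ℓ Γ where
  V := HL ι X
  r :=
    { toFun := fun g =>
        { toFun := fun x => toHL ι ((SSP.toG A).e g X (x : W.H X))
          map_add' := fun x y => congrArg (toHL ι) (act_add g (x : W.H X) (y : W.H X))
          map_smul' := fun c x => congrArg (toHL ι) (act_smul g (ι.symm c) (x : W.H X)) }
      map_one' := by
        apply LinearMap.ext
        intro x
        exact (SSP.toG A).one X x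
      map_mul' := fun g h => by
        apply LinearMap.ext
        intro x
        exact (SSP.toG A).mul g h X x }
  cts v φ := by
    let φ' : W.H X →ₗ[W.K] W.K :=
      { toFun := fun x => ι.symm (φ (toHL ι x))
        map_add' := fun x y => by rw [toHL_add, map_add, map_add]
        map_smul' := fun c x => by
          rw [toHL_smul, map_smul, smul_eq_mul, map_mul, ι.symm_apply_apply, RingHom.id_apply,
            smul_eq_mul] }
    refine (hc X φ' (v : W.H X)).congr fun g => ?_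
    exact ι.apply_symm_apply _

lemma stab_iff (hc : ∀ X, SSQ.ContinuousFor ι (SSP.rep A X)) {X : 𝒱.Obj}
    {V : Submodule W.K (W.H X)} :
    (grep hc X).Stable (subHL ι V) ↔ IsStable (SSP.toG A) V := Iff.rfl

lemma ss_gr (hc : ∀ X, SSQ.ContinuousFor ι (SSP.rep A X)) {X : 𝒱.Obj} {i : ℕ}
    (h : IsSemisimple (SSP.toG A) X i) : (grep hc X).SS ⊥ (subHL ι (W.gr X i)) := by
  refine ⟨stable_bot _, (stab_iff hc).2 fun g x hx => (SSP.toG A).gr g X i x hx, bot_le, ?_⟩
  intro U hU _ hUi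
  obtain ⟨V, rfl⟩ := (subHL ι).surjective U
  obtain ⟨V', hV', h1, h2⟩ := h V ((subHL ι).le_iff_le.1 hUi) ((stab_iff hc).1 hU)
  refine ⟨subHL ι V', (stab_iff hc).2 hV', bot_le, ?_, ?_, ?_⟩
  · rw [← h2]
    exact (subHL ι).le_iff_le.2 le_sup_right
  · exact (subHL_inf ι).1 h1
  · exact (subHL_sup ι).1 h2

/-- The total cohomology is semisimple. -/
def Total (B : GaloisAction W Γ) (X : 𝒱.Obj) : Prop :=
  ∀ V : Submodule W.K (W.H X), IsStable B V → ∃ V', IsStable B V' ∧ IsCompl V V'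

lemma total_of_ss (hc : ∀ X, SSQ.ContinuousFor ι (SSP.rep A X)) {X : 𝒱.Obj}
    (h : (grep hc X).SS ⊥ ⊤) : Total (SSP.toG A) X := by
  intro V hV
  obtain ⟨-, -, -, hs⟩ := h
  obtain ⟨U', hU', -, -, h1, h2⟩ := hs (subHL ι V) ((stab_iff hc).2 hV) bot_le le_top
  obtain ⟨V', rfl⟩ := (subHL ι).surjective U'
  refine ⟨V', (stab_iff hc).1 hU', ?_⟩
  have h3 : V ⊓ V' = ⊥ := (subHL_inf ι).2 h1
  have h4 : V ⊔ V' = ⊤ := (subHL_top ι).2 h2
  exact IsCompl.of_eq h3 h4

variable [IsTopologicalGroup Γ] [CompactSpace Γ]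

lemma ss_total (hc : ∀ X, SSQ.ContinuousFor ι (SSP.rep A X)) {X : 𝒱.Obj} [Nontrivial (W.H X)]
    (h : ∀ i, IsSemisimple (SSP.toG A) X i) : (grep hc X).SS ⊥ ⊤ := by
  refine semi_of_sup (grep hc X) (inferInstanceAs (Nontrivial (W.H X)))
    (fun i => subHL ι (W.gr X i)) (fun i => ss_gr hc (h i)) ?_
  have h1 : ⨆ i, W.gr X i = ⊤ := (W.isInternal X).submodule_iSup_eq_top
  have h2 := (subHL ι).map_iSup (fun i => W.gr X i)
  rw [h1, OrderIso.map_top] at h2
  exact h2.symm

lemma ss_pw (hc : ∀ X, SSQ.ContinuousFor ι (SSP.rep A X)) {X : 𝒱.Obj} [hX : Nontrivial (W.H X)]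
    (h : (grep hc X).SS ⊥ ⊤) : ∀ n, (grep hc (pw X n)).SS ⊥ ⊤
  | 0 => h
  | n + 1 => by
    have hn : Nontrivial (W.H (pw X n)) := by
      apply Module.nontrivial_of_finrank_pos (R := W.K)
      rw [finrank_pw]
      exact Nat.pow_pos Module.finrank_pos
    obtain ⟨e, he⟩ := exists_prodHL ι (pw X n) X
    refine semi_prod (grep hc (pw X n)) (grep hc X) (grep hc (pw X (n + 1))) e ?_
      (ss_pw hc h n) h hn
    intro γ v w
    have h1 := he ((SSP.toG A).e γ (pw X n) (v : W.H (pw X n))) ((SSP.toG A).e γ X (w : W.H X))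
    have h2 := he (v : W.H (pw X n)) (w : W.H X)
    refine h1.trans ?_
    refine Eq.trans ?_ (congrArg ((grep hc (pw X (n + 1))).r γ) h2.symm)
    exact congrArg (toHL ι) (xp_act (SSP.toG A) γ (v : W.H (pw X n)) (w : W.H X)).symm

omit [TopologicalSpace Γ] [IsTopologicalGroup Γ] [CompactSpace Γ] in
/-- A variety which is dominated by a variety with semisimple cohomology. -/
lemma semisimple_of_total {B : GaloisAction W Γ} (hP : Total B P) {f : P ⟶ Z}
    (hf : Function.Injective (W.map f)) (i : ℕ) : IsSemisimple B Z i := by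
  intro V hVi hV
  obtain ⟨U, hU, hc⟩ := hP (V.map (W.map f).toLinearMap) (by
    rintro g _ ⟨x, hx, rfl⟩
    refine ⟨B.e g Z x, hV g x hx, ?_⟩
    exact (B.nat g P Z f x).symm)
  refine ⟨U.comap (W.map f).toLinearMap ⊓ W.gr Z i, ?_, ?_, ?_⟩
  · rintro g x ⟨hx1, hx2⟩
    refine ⟨?_, B.gr g Z i x hx2⟩
    have h1 : W.map f (B.e g Z x) = B.e g P (W.map f x) := (B.nat g P Z f x).symm
    change W.map f (B.e g Z x) ∈ U
    rw [h1]
    exact hU g _ hx1
  · rw [Submodule.eq_bot_iff]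
    rintro x ⟨hx1, hx2, -⟩
    have h1 : W.map f x ∈ V.map (W.map f).toLinearMap ⊓ U := ⟨⟨x, hx1, rfl⟩, hx2⟩
    rw [hc.inf_eq_bot, Submodule.mem_bot] at h1
    exact hf (h1.trans (map_zero _).symm)
  · apply le_antisymm
    · exact sup_le hVi inf_le_right
    · intro x hx
      have h1 : W.map f x ∈ V.map (W.map f).toLinearMap ⊔ U := by
        rw [hc.sup_eq_top]; exact Submodule.mem_top
      obtain ⟨_, ⟨v, hv, rfl⟩, u, hu, h2⟩ := Submodule.mem_sup.1 h1
      have h3 : W.map f (x - v) = u := by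
        rw [map_sub, ← h2]
        exact add_sub_cancel_left _ _
      refine Submodule.mem_sup.2 ⟨v, hv, x - v, ⟨?_, Submodule.sub_mem _ hx (hVi hv)⟩,
        add_sub_cancel _ _⟩
      change W.map f (x - v) ∈ U
      rw [h3]
      exact hu

/-- **Powers.** If the cohomology of `X` is semisimple, then so is the cohomology of every variety
dominated by a power of `X`. -/
theorem semisimple_dom (hc : ∀ X, SSQ.ContinuousFor ι (SSP.rep A X))
    (h : ∀ i, IsSemisimple (SSP.toG A) X i) {N : ℕ} {f : pw X N ⟶ Z}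
    (hf : Function.Injective (W.map f)) (i : ℕ) : IsSemisimple (SSP.toG A) Z i := by
  rcases subsingleton_or_nontrivial (W.H X) with hs | hn
  · have h1 : finrank W.K (W.H (pw X N)) = 0 := by
      rw [finrank_pw, Module.finrank_zero_of_subsingleton, zero_pow (Nat.succ_ne_zero N)]
    have h2 : Subsingleton (W.H (pw X N)) := Module.finrank_zero_iff.1 h1
    have h3 : ∀ x : W.H Z, x = 0 := fun x => hf (Subsingleton.elim _ _)
    intro V hV _
    refine ⟨W.gr Z i, fun g x hx => (SSP.toG A).gr g Z i x hx, ?_, ?_⟩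
    · rw [Submodule.eq_bot_iff]; exact fun x _ => h3 x
    · exact le_antisymm (sup_le hV le_rfl) le_sup_right
  · exact semisimple_of_total (total_of_ss hc (ss_pw hc (ss_total hc h) N)) hf i

end Pool.Agent.W5h89.SSE
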