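import Pool.Agent.W5h89.SSP.Rep

/-!
# Determinants of stable subspaces: definitions
-/

namespace Pool.Agent.W5h89.SSE

open Pool.Agent.W5h89.SSP

variable {K M Γ : Type*} [Field K] [AddCommGroup M] [Module K M]

/-- The dimension of the subspace `G`. -/
noncomputable def dimSub (G : Submodule K M) : ℕ := Module.finrank K G

/-- For every stable subspace `V` of `G` one has `det (ρ g | V) ^ 2 = c g ^ (i dim V)` for the
elements `g` of a subgroup of finite index. -/
def CyclotomicDet [Group Γ] (ρ : Γ → M →ₗ[K] M) (G : Submodule K M) (c : Γ → K) (i : ℕ) : Prop :=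
  ForStable ρ G fun V h => ∃ Δ : Subgroup Γ, Δ.FiniteIndex ∧
    ∀ g ∈ Δ, detOn ρ h g ^ 2 = c g ^ (i * dimSub V)

end Pool.Agent.W5h89.SSE
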