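import Pool.Agent.W5h89.SSP.Defs
import Pool.Agent.W5h89.SSQ.Frob
import Pool.Agent.W5h89.SSE.Rep

/-!
# Semisimplicity and Tate classes over the rational numbers: definitions
-/

open CategoryTheory AlgebraicGeometry

universe u v

namespace Pool.Agent.W5h89.SSE

open Pool.Agent.H914
open Pool.Agent.W5h89.SSP Pool.Agent.W5h89.SSQ
open Pool.Agent.Y133.Half (pw)

variable {k : Type u} [Field k] {𝒱 : VarClass k} {ops : CycleOps 𝒱}

section

variable {D : WeilData.{u, v} 𝒱} {Γ : Type} [Group Γ]

/-- The coefficient field is identified with the field of `ℓ`-adic numbers by `ι`, the map `c` (by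
which the elements act on the Tate twist) is a continuous character, and the action is
continuous. -/
structure IsEllAdic {ℓ : ℕ} [Fact ℓ.Prime] (ι : D.K ≃+* ℚ_[ℓ]) [TopologicalSpace Γ]
    (A : GaloisAction D Γ) : Prop where
  mul : ∀ g h, A.c (g * h) = A.c g * A.c h
  cont_c : Continuous fun g => ι (A.c g)
  cont : ∀ X, ContinuousFor ι (rep A X)

/-- The action `A` has the following properties of the action on the `ℓ`-adic cohomology of varieties
over `ℚ`; there `θ` is an isomorphism of the absolute Galois group of `ℚ` with `Γ`, in general it is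
a continuous homomorphism with image of finite index. For every variety `X` and all large prime
numbers `q`, the inverse `σ⁻¹` of a Frobenius element `σ` at `q` satisfies `c σ⁻¹ = q` and is pure
of weight `i` on `H^i(X)` (Deligne): it is annihilated by a monic polynomial with integral
coefficients all of whose complex roots have absolute value `√(q ^ i)`. -/
structure IsOverQ [TopologicalSpace Γ] (θ : Gal(AlgebraicClosure ℚ/ℚ) →* Γ)
    (A : GaloisAction D Γ) : Prop where
  range : θ.range.FiniteIndex
  cont : Continuous θ
  frob : ∀ X i, ∃ B, ∀ q σ, B < q → q.Prime → IsFrobenius q σ →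
    A.c (θ σ⁻¹) = q ∧ PureOn (rep A X (θ σ⁻¹)) (D.gr X i) q i

/-- The determinant of every stable subspace `V` of `H^i(X)` is potentially a square root of a power
of the cyclotomic character: `det (g | V) ^ 2 = c g ^ (i dim V)` for the elements `g` of a subgroup
of finite index. -/
def HasCyclotomicDeterminants (A : GaloisAction D Γ) (X : 𝒱.Obj) : Prop :=
  ∀ i, CyclotomicDet (rep A X) (D.gr X i) A.c i

/-- The dimension of `H^i(X)`. -/
noncomputable def betti (D : WeilData.{u, v} 𝒱) (X : 𝒱.Obj) (i : ℕ) : ℕ := dimSub (D.gr X i)

end

variable {W : WeilCohomology.{u, v} ops} {Γ : Type} [Group Γ] (A : GaloisAction W.toWeilData Γ)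

/-- The intersection form on the space spanned by the Tate classes of `X` is nondegenerate. -/
def Nondegenerate (X : 𝒱.Obj) : Prop := ∀ x : W.H X, InKernel A X x → x = 0

/-- The cohomology of `X` is semisimple in all degrees. -/
def Semisimple (X : 𝒱.Obj) : Prop := ∀ i, SemisimpleIn A X i

/-- The cohomology of every variety which is dominated by a power of `X` (there is a morphism from a
power of `X` to it for which the pull-back is injective on cohomology) is semisimple. -/
def SemisimpleBelow (X : 𝒱.Obj) : Prop :=
  ∀ (Z : 𝒱.Obj) (N : ℕ) (f : pw X N ⟶ Z), InjPull W.toWeilData f → Semisimple A Z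

/-- The quotient `a n / b n` does not tend to zero: for some `ε > 0` there are infinitely many `n`
with `a n ≥ ε * b n`. -/
def NotNegligible (a b : ℕ → ℕ) : Prop :=
  ∃ ε : ℝ, 0 < ε ∧ ∀ n₀ : ℕ, ∃ n ≥ n₀, ε * (b n : ℝ) ≤ (a n : ℝ)

end Pool.Agent.W5h89.SSE
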