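import Pool.Agent.W5h89.SSE.Defs
import Pool.Agent.W5h89.SSE.Chev

/-!
# Semisimplicity and Tate classes over the rational numbers
-/

open CategoryTheory AlgebraicGeometry

universe u v

namespace Pool.Agent.W5h89.SSE

open Module
open Pool.Agent.H914 Pool.Agent.H914.VarClass Pool.Agent.H914.VarClass.Obj
  Pool.Agent.H914.WeilCohomology
open Pool.Agent.Y133.Half (pw cycRank Sys)
open Pool.Agent.Y121.AHS (RatioToZero)
open Pool.Agent.W5h89
open Pool.Agent.W5h89.SSD (tPred)

variable {k : Type u} [Field k] {𝒱 : VarClass k} {ops : CycleOps 𝒱}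
  {W : WeilCohomology.{u, 0} ops} {Γ : Type} [Group Γ] {X Y Z : 𝒱.Obj} {ℓ : ℕ} [Fact ℓ.Prime]
  {ι : W.K ≃+* ℚ_[ℓ]} {θ : Gal(AlgebraicClosure ℚ/ℚ) →* Γ} (A : SSP.GaloisAction W.toWeilData Γ)

lemma nondeg_iff : Nondegenerate A X ↔ (tPred (SSP.toG A)).sys.Num X = ⊥ := by
  have h : ∀ x, SSP.InKernel A X x ↔ x ∈ (tPred (SSP.toG A)).sys.Num X := by
    intro x
    constructor
    · rintro ⟨h1, h2⟩
      refine ⟨h1, fun y hy => ?_⟩
      have hy' : y ∈ Submodule.span W.K (SSP.tateSet A X) := hy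
      clear hy
      induction hy' using Submodule.span_induction with
      | mem y hy => exact h2 y hy
      | zero => rw [mul_zero, map_zero]
      | add y z _ _ hy hz => rw [mul_add, map_add, hy, hz, add_zero]
      | smul r y _ hy => rw [mul_smul_comm, map_smul, hy, smul_zero]
    · rintro ⟨h1, h2⟩
      exact ⟨h1, fun y hy => h2 y (Submodule.subset_span hy)⟩
  rw [Submodule.eq_bot_iff]
  exact ⟨fun h' x hx => h' x ((h x).2 hx), fun h' x hx => h' x ((h x).1 hx)⟩

lemma nondeg_rank (h : Nondegenerate A X) : SSP.tateRank A X = SSP.tateDim A X := by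
  rw [nondeg_iff] at h
  have h1 := Sys.a_add_num (tPred (SSP.toG A)).sys X
  rw [h, finrank_bot, add_zero] at h1
  rw [SSP.tateRank_eq, SSD.tateRank_eq, h1]
  rfl

lemma rank_le (Z : 𝒱.Obj) : cycRank ops Z ≤ SSP.tateRank A Z := by
  rw [SSP.tateRank_eq]
  exact SSD.cycRank_le (SSP.toG A) Z

variable {A}

lemma nondeg_of_not_negligible
    (h : NotNegligible (fun n => SSP.tateRank A (pw X n)) fun n => SSP.tateDim A (pw X n))
    (n : ℕ) : Nondegenerate A (pw X n) := by
  rcases subsingleton_or_nontrivial (W.H X) with hs | hn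
  · have h1 : finrank W.K (W.H (pw X n)) = 0 := by
      rw [Pool.Agent.Y133.Half.finrank_pw, Module.finrank_zero_of_subsingleton,
        zero_pow (Nat.succ_ne_zero n)]
    have h2 : Subsingleton (W.H (pw X n)) := Module.finrank_zero_iff.1 h1
    exact fun x _ => Subsingleton.elim _ _
  rw [nondeg_iff]
  rcases Sys.num_or (tPred (SSP.toG A)).sys (tPred (SSP.toG A)).sys (fun _ => le_rfl) X with
    h1 | h1
  · exact h1 n
  exfalso
  obtain ⟨ε, hε, hpos⟩ := h
  obtain ⟨M, hM⟩ := exists_nat_gt (1 / ε)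
  obtain ⟨n₀, hn₀⟩ := h1 M
  obtain ⟨m, hm, h2⟩ := hpos n₀
  have h3 := hn₀ m hm
  have h4 : 0 < SSD.tateDim (SSP.toG A) (pw X m) := by
    have h5 : Nontrivial (W.H (pw X m)) := by
      apply Module.nontrivial_of_finrank_pos (R := W.K)
      rw [Pool.Agent.Y133.Half.finrank_pw]
      exact Nat.pow_pos Module.finrank_pos
    have h6 : (1 : W.H (pw X m)) ∈ SSD.tateSpan (SSP.toG A) (pw X m) :=
      (tPred (SSP.toG A)).sys.one (pw X m)
    have h7 : Nontrivial (SSD.tateSpan (SSP.toG A) (pw X m)) := ⟨⟨⟨1, h6⟩, 0, fun h => by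
      exact one_ne_zero (congrArg Subtype.val h)⟩⟩
    exact Module.finrank_pos
  have h5 : M * SSP.tateRank A (pw X m) ≤ SSP.tateDim A (pw X m) := by
    rw [SSP.tateRank_eq, SSD.tateRank_eq]
    exact h3
  have h6 : (0 : ℝ) < SSP.tateDim A (pw X m) := by exact_mod_cast h4
  have h7 : (M : ℝ) * SSP.tateRank A (pw X m) ≤ SSP.tateDim A (pw X m) := by exact_mod_cast h5
  have h8 : (1 : ℝ) < M * ε := by
    have := (div_lt_iff₀ hε).1 hM
    exact this
  have h9 : (M : ℝ) * (ε * SSP.tateDim A (pw X m)) ≤ M * SSP.tateRank A (pw X m) :=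
    mul_le_mul_of_nonneg_left h2 (Nat.cast_nonneg M)
  have h10 : (1 : ℝ) * SSP.tateDim A (pw X m) < (M * ε) * SSP.tateDim A (pw X m) :=
    mul_lt_mul_of_pos_right h8 h6
  have h11 : (M : ℝ) * ε * SSP.tateDim A (pw X m) = M * (ε * SSP.tateDim A (pw X m)) :=
    mul_assoc _ _ _
  linarith

lemma cycDet_of (h : HasCyclotomicDeterminants A X) : CycDet (SSP.toG A) X :=
  fun i V hVi hV => h i V hVi hV

theorem semisimple_of_nondeg (hX : HasCyclotomicDeterminants A X) {i b : ℕ}
    (hb : betti W.toWeilData X i ≤ b) (h : Nondegenerate A (pw X (b - 1))) :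
    SSP.SemisimpleIn A X i :=
  semisimple_eff (cycDet_of hX) hb ((nondeg_iff A).1 h)

variable [TopologicalSpace Γ]

/-- Over the rational numbers. -/
theorem hasCyc_of_overQ (hA : IsEllAdic ι A) (hQ : IsOverQ θ A) (X : 𝒱.Obj) :
    HasCyclotomicDeterminants A X := by
  have h : SSQ.IsEllAdic ι θ A :=
    { range := hQ.range
      mul := hA.mul
      cont_c := hA.cont_c.comp hQ.cont
      cont := fun X φ x => (hA.cont X φ x).comp hQ.cont
      frob := hQ.frob }
  intro i V hVi hV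
  exact SSQ.exists_sq h hVi hV

variable [IsTopologicalGroup Γ] [CompactSpace Γ]

/-- **The equivalences.** -/
theorem tfae (hA : IsEllAdic ι A)
    (h31 : (∀ n, Nondegenerate A (pw X n)) → Semisimple A X) :
    List.TFAE [Semisimple A X, SemisimpleBelow A X, ∀ n, Nondegenerate A (pw X n),
      NotNegligible (fun n => SSP.tateRank A (pw X n)) fun n => SSP.tateDim A (pw X n)] := by
  tfae_have 1 → 2 := by
    intro h Z N f hf i
    exact semisimple_dom hA.cont h (SSP.inj_of hf) i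
  tfae_have 2 → 3 := by
    intro h n
    rw [nondeg_iff]
    have hid : SSP.InjPull W.toWeilData (𝟙 (pw X n)) := by
      intro x hx
      rwa [W.map_id] at hx
    exact num_eq_bot (SSP.toG A) hA.mul (pw X n) (h (pw X n) n (𝟙 _) hid)
  tfae_have 3 → 1 := h31
  tfae_have 3 → 4 := by
    intro h
    refine ⟨1, one_pos, fun n₀ => ⟨n₀, le_rfl, ?_⟩⟩
    have h1 := nondeg_rank A (h n₀)
    rw [one_mul]
    exact_mod_cast h1.ge
  tfae_have 4 → 3 := fun h n => nondeg_of_not_negligible h n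
  tfae_finish

omit [TopologicalSpace Γ] [IsTopologicalGroup Γ] [CompactSpace Γ] in
theorem semisimple_of_dual (hd : ∀ i, SSP.AllDual A X X i)
    (h : ∀ n, Nondegenerate A (pw X n)) : Semisimple A X := by
  intro i V hVi hV
  exact SSD.split (SSP.toG A) (X := X) (m := 0) (fun n => (nondeg_iff A).1 (h n)) hVi hV
    ((SSP.hasDualLine_iff A X i hV).1 (hd i V hVi hV))

/-- **The main theorem.** -/
theorem main (hA : IsEllAdic ι A)
    (hX : (∃ θ, IsOverQ θ A) ∨ HasCyclotomicDeterminants A X ∨ ∀ i, SSP.AllDual A X X i) :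
    List.TFAE [Semisimple A X, SemisimpleBelow A X, ∀ n, Nondegenerate A (pw X n),
      NotNegligible (fun n => SSP.tateRank A (pw X n)) fun n => SSP.tateDim A (pw X n)] ∧
    (NotNegligible (fun n => cycRank ops (pw X n)) (fun n => SSP.tateDim A (pw X n)) →
      Semisimple A X) ∧
    ((∃ θ, IsOverQ θ A) ∨ HasCyclotomicDeterminants A X → ∀ i b, betti W.toWeilData X i ≤ b →
      Nondegenerate A (pw X (b - 1)) → SSP.SemisimpleIn A X i) := by
  have hcyc : (∃ θ, IsOverQ θ A) ∨ HasCyclotomicDeterminants A X →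
      HasCyclotomicDeterminants A X := by
    rintro (⟨θ, hQ⟩ | h)
    · exact hasCyc_of_overQ hA hQ X
    · exact h
  have h31 : (∀ n, Nondegenerate A (pw X n)) → Semisimple A X := by
    intro h
    rcases or_assoc.2 hX with h1 | h1
    · intro i
      exact semisimple_of_nondeg (hcyc h1) le_rfl (h _)
    · exact semisimple_of_dual h1 h
  have ht := tfae hA h31
  refine ⟨ht, fun h => (ht.out 0 3).2 ?_, fun h i b hb hn =>
    semisimple_of_nondeg (hcyc h) hb hn⟩
  obtain ⟨ε, hε, hpos⟩ := h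
  refine ⟨ε, hε, fun n₀ => ?_⟩
  obtain ⟨n, hn, h1⟩ := hpos n₀
  exact ⟨n, hn, h1.trans (by exact_mod_cast rank_le A (pw X n))⟩

end Pool.Agent.W5h89.SSE
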