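import Pool.Agent.W5h89.SSD.Law

/-!
# Semisimplicity implies that the form is nondegenerate on the Tate classes
-/

open CategoryTheory AlgebraicGeometry

universe u v w

namespace Pool.Agent.W5h89.SSE

open Module
open Pool.Agent.H914 Pool.Agent.H914.VarClass Pool.Agent.H914.VarClass.Obj
  Pool.Agent.H914.WeilCohomology Pool.Agent.Y133.Half
open Pool.Agent.W5h89.SSD

variable {k : Type u} [Field k] {𝒱 : VarClass k} {ops : CycleOps 𝒱}
  {W : WeilCohomology.{u, v} ops} {Γ : Type w} [Group Γ] (A : GaloisAction W Γ)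
  {X Y Z : 𝒱.Obj}

/-- The space of Tate classes of degree `2 j`. -/
noncomputable def T (X : 𝒱.Obj) (j : ℕ) : Submodule W.K (W.H X) where
  carrier := {x | IsTate A X j x}
  add_mem' := (tPred A).add
  zero_mem' := (tPred A).zero
  smul_mem' r _ := (tPred A).smul r

lemma mem_T {j : ℕ} {x : W.H X} : x ∈ T A X j ↔ IsTate A X j x := Iff.rfl

/-- One subgroup of finite index fixes all Tate classes. -/
lemma exists_fix (X : 𝒱.Obj) (j : ℕ) :
    ∃ Δ : Subgroup Γ, Δ.FiniteIndex ∧ ∀ g ∈ Δ, ∀ x, IsTate A X j x → A.e g X x = A.c g ^ j • x := by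
  let b := Module.finBasis W.K (T A X j)
  have hb : ∀ a, ∃ Δ : Subgroup Γ, Δ.FiniteIndex ∧
      ∀ g ∈ Δ, A.e g X (b a : W.H X) = A.c g ^ j • (b a : W.H X) := fun a => (b a).2.2
  choose D hD1 hD2 using hb
  refine ⟨⨅ a, D a, Subgroup.finiteIndex_iInf hD1, fun g hg x hx => ?_⟩
  rw [Subgroup.mem_iInf] at hg
  have h1 : ∀ y : T A X j, A.e g X (y : W.H X) = A.c g ^ j • (y : W.H X) := by
    intro y
    rw [← b.sum_repr y, Submodule.coe_sum, map_sum, Finset.smul_sum]
    refine Finset.sum_congr rfl fun a _ => ?_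
    rw [Submodule.coe_smul, map_smul, hD2 a g (hg a), smul_comm]
  exact h1 ⟨x, hx⟩

/-- The space of Tate classes is stable. -/
lemma T_stable (hc : ∀ g h, A.c (g * h) = A.c g * A.c h) (X : 𝒱.Obj) (j : ℕ) :
    IsStable A (T A X j) := by
  intro g x hx
  obtain ⟨hx0, Δ, hΔ, h⟩ := hx
  refine ⟨A.gr g X _ x hx0, Δ.map (MulAut.conj g).toMonoidHom, ?_, ?_⟩
  · refine ⟨?_⟩
    have h1 : (Δ.map (MulAut.conj g).toMonoidHom).index = Δ.index :=
      Subgroup.index_map_equiv Δ (MulAut.conj g)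
    rw [h1]
    exact hΔ.index_ne_zero
  · rintro _ ⟨δ, hδ, rfl⟩
    have h1 : (MulAut.conj g).toMonoidHom δ = g * δ * g⁻¹ := rfl
    have hcc : A.c (g * δ * g⁻¹) = A.c δ := by
      rw [hc, hc, mul_comm (A.c g), mul_assoc, ← hc, mul_inv_cancel]
      have h2 := hc 1 1
      rw [mul_one] at h2
      rw [(mul_eq_left₀ (A.ne 1)).1 h2.symm, mul_one]
    rw [h1, hcc, A.mul, A.mul, A.inv_left, h δ hδ, map_smul]

/-- The trace pairing is perfect. -/
lemma exists_dual (lam : W.H X →ₗ[W.K] W.K) : ∃ y : W.H X, ∀ z, W.tr X (y * z) = lam z := by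
  let φ : W.H X →ₗ[W.K] Dual W.K (W.H X) := (LinearMap.mul W.K (W.H X)).compr₂ (W.tr X)
  have hφ : ∀ y z, φ y z = W.tr X (y * z) := fun y z => rfl
  have hinj : Function.Injective φ := by
    rw [← LinearMap.ker_eq_bot, LinearMap.ker_eq_bot']
    intro y hy
    apply W.nondeg
    intro z
    rw [← hφ, hy, LinearMap.zero_apply]
  have hsurj : Function.Surjective φ :=
    (LinearMap.injective_iff_surjective_of_finrank_eq_finrank
      (Subspace.dual_finrank_eq (K := W.K) (V := W.H X)).symm).1 hinj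
  obtain ⟨y, hy⟩ := hsurj lam
  exact ⟨y, fun z => by rw [← hφ, hy]⟩

lemma tr_proj {j l : ℕ} (hjl : j + l = X.dim) (y : W.H X) {z : W.H X} (hz : z ∈ W.gr X (2 * j)) :
    W.tr X (H914.proj (W.isInternal X) (2 * l) y * z) = W.tr X (y * z) := by
  refine gr_induction (W.isInternal X) (p := fun y =>
    W.tr X (H914.proj (W.isInternal X) (2 * l) y * z) = W.tr X (y * z)) ?_ ?_ y
  · intro i a ha
    by_cases hi : i = 2 * l
    · subst hi
      rw [proj_same _ ha]
    · rw [proj_ne _ ha hi, zero_mul, map_zero]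
      exact (W.tr_eq_zero (W.mul_mem ha hz) (by omega)).symm
  · intro a b ha hb
    rw [map_add, add_mul, map_add, ha, hb, add_mul, map_add]

/-- The graded nondegeneracy. -/
lemma exists_pairing (hc : ∀ g h, A.c (g * h) = A.c g * A.c h) {j l : ℕ} (hjl : j + l = X.dim)
    (hs : IsSemisimple A X (2 * j)) {x : W.H X} (hx : IsTate A X j x) (hx0 : x ≠ 0) :
    ∃ y, IsTate A X l y ∧ W.tr X (y * x) ≠ 0 := by
  obtain ⟨C, hC, hTC, hTC'⟩ := hs (T A X j) (fun x hx => hx.1) (T_stable A hc X j)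
  -- the rest of the cohomology
  set R : Submodule W.K (W.H X) := LinearMap.ker (H914.proj (W.isInternal X) (2 * j)) with hR
  have hxM : x ∉ C ⊔ R := by
    intro h
    obtain ⟨a, ha, r, hr, hx2⟩ := Submodule.mem_sup.1 h
    have haC : a ∈ W.gr X (2 * j) := by
      rw [← hTC']; exact Submodule.mem_sup_right ha
    have h1 : H914.proj (W.isInternal X) (2 * j) x = a := by
      rw [← hx2, map_add, proj_same _ haC, LinearMap.mem_ker.1 hr, add_zero]
    rw [proj_same _ hx.1] at h1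
    have h2 : x ∈ T A X j ⊓ C := ⟨hx, h1 ▸ ha⟩
    rw [hTC, Submodule.mem_bot] at h2
    exact hx0 h2
  obtain ⟨lam, hlx, hlM⟩ : ∃ lam : W.H X →ₗ[W.K] W.K, lam x ≠ 0 ∧ ∀ z ∈ C ⊔ R, lam z = 0 := by
    obtain ⟨f, hf, hf2⟩ := Submodule.exists_le_ker_of_notMem hxM
    exact ⟨f, hf, fun z hz => LinearMap.mem_ker.1 (hf2 hz)⟩
  obtain ⟨y, hy⟩ := exists_dual lam
  obtain ⟨Δ, hΔ, hfix⟩ := exists_fix A X j
  set y' := H914.proj (W.isInternal X) (2 * l) y with hy'
  have hy'g : y' ∈ W.gr X (2 * l) := proj_mem _ _ _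
  have hlam : ∀ z ∈ W.gr X (2 * j), W.tr X (y' * z) = lam z := by
    intro z hz
    rw [hy', tr_proj hjl y hz, hy]
  refine ⟨y', ⟨hy'g, Δ, hΔ, fun g hg => ?_⟩, ?_⟩
  · rw [← sub_eq_zero]
    apply W.nondeg
    intro b
    have hgy : A.e g X y' - A.c g ^ l • y' ∈ W.gr X (2 * l) :=
      Submodule.sub_mem _ (A.gr g X _ y' hy'g) (Submodule.smul_mem _ _ hy'g)
    refine gr_induction (W.isInternal X) (p := fun b =>
      W.tr X ((A.e g X y' - A.c g ^ l • y') * b) = 0) ?_ ?_ b
    · intro i b hb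
      by_cases hi : i = 2 * j
      · subst hi
        -- the inverse image of `b`
        have hb' : A.e g⁻¹ X b ∈ W.gr X (2 * j) := A.gr _ X _ b hb
        obtain ⟨t, ht, a, ha, hta⟩ := Submodule.mem_sup.1 (by rw [hTC']; exact hb' :
          A.e g⁻¹ X b ∈ T A X j ⊔ C)
        have h1 : b = A.c g ^ j • t + A.e g X a := by
          rw [← hfix g hg t ht, ← map_add, hta, A.inv_right]
        have hga : A.e g X a ∈ C := hC g a ha
        have h2 : W.tr X (A.e g X y' * b) = A.c g ^ X.dim * lam (t + a) := by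
          rw [← A.inv_right g X b, ← A.ring, A.tr, hlam _ hb', hta]
        rw [sub_mul, map_sub, h2, smul_mul_assoc, map_smul, hlam b hb, h1, map_add, map_add,
          map_smul, hlM a (Submodule.mem_sup_left ha), hlM _ (Submodule.mem_sup_left hga),
          add_zero, add_zero, smul_eq_mul, smul_eq_mul, ← mul_assoc, ← pow_add, ← hjl,
          add_comm l j, sub_self]
      · exact W.tr_eq_zero (W.mul_mem hgy hb) (by omega)
    · intro a b ha hb
      rw [mul_add, map_add, ha, hb, add_zero]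
  · rw [hlam x hx.1]
    exact hlx

/-- **Semisimplicity implies nondegeneracy.** -/
theorem num_eq_bot (hc : ∀ g h, A.c (g * h) = A.c g * A.c h) (X : 𝒱.Obj)
    (hs : ∀ i, IsSemisimple A X i) : (tPred A).sys.Num X = ⊥ := by
  rw [Submodule.eq_bot_iff]
  rintro x ⟨hx, hxy⟩
  have hx' : x ∈ (tPred A).sp X := hx
  have h0 : ∀ j l, j + l = X.dim → H914.proj (W.isInternal X) (2 * j) x = 0 := by
    intro j l hjl
    by_contra hne
    obtain ⟨y, hy, hy0⟩ := exists_pairing A hc hjl (hs (2 * j))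
      (ClassPred.sp_proj (Q := tPred A) hx' j) hne
    apply hy0
    have hcomm : ∀ z : W.H X, y * z = z * y := by
      intro z
      refine gr_induction (W.isInternal X) (p := fun z => y * z = z * y) ?_ ?_ z
      · intro i a ha
        rw [W.comm hy.1 ha]
        rw [mul_assoc, pow_mul, neg_one_sq, one_pow, one_smul]
      · intro a b ha hb
        rw [mul_add, add_mul, ha, hb]
    rw [hcomm, tr_proj (j := l) (l := j) (by omega) x hy.1]
    exact hxy y (ClassPred.sp_of (Q := tPred A) hy)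
  apply W.nondeg
  intro b
  refine gr_induction (W.isInternal X) (p := fun b => W.tr X (x * b) = 0) ?_ ?_ b
  · intro i b hb
    rcases Nat.even_or_odd' i with ⟨l, rfl | rfl⟩
    · by_cases hl' : l ≤ X.dim
      · rw [← tr_proj (j := l) (l := X.dim - l) (by omega) x hb, h0 (X.dim - l) l (by omega),
          zero_mul, map_zero]
      · rw [W.gr_eq_bot X (2 * l) (by omega)] at hb
        rw [(Submodule.mem_bot _).1 hb, mul_zero, map_zero]
    · exact PH.tr_odd (PH.mul (ClassPred.sp_even hx') (PH.of hb)) (by omega)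
  · intro a b ha hb
    rw [mul_add, map_add, ha, hb, add_zero]

end Pool.Agent.W5h89.SSE
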